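import Mathlib

set_option autoImplicit false

namespace Pool.Agent.H.QR

open Finset Filter Topology

theorem ex (x y : ℕ) : ∃ i, x / 2 ^ i = y / 2 ^ i :=
  ⟨x + y, by
    rw [Nat.div_eq_of_lt, Nat.div_eq_of_lt]
    · exact lt_of_le_of_lt (by omega) (Nat.lt_two_pow_self)
    · exact lt_of_le_of_lt (by omega) (Nat.lt_two_pow_self)⟩

def d (x y : ℕ) : ℕ := Nat.find (ex x y)

theorem d_symm (x y : ℕ) : d x y = d y x := by
  unfold d; simp only [eq_comm (a := x / _)]

theorem d_le {x y m : ℕ} (hx : x < 2 ^ m) (hy : y < 2 ^ m) : d x y ≤ m :=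
  Nat.find_min' _ (by rw [Nat.div_eq_of_lt hx, Nat.div_eq_of_lt hy])

theorem d_ne {x y z : ℕ} (h1 : x < y) (h2 : y < z) : d x y ≠ d y z := by
  intro h
  have a1 : x / 2 ^ d x y = y / 2 ^ d x y := Nat.find_spec (ex x y)
  have a2 : y / 2 ^ d y z = z / 2 ^ d y z := Nat.find_spec (ex y z)
  have b1 : ∀ i < d x y, ¬ x / 2 ^ i = y / 2 ^ i := fun i hi => Nat.find_min (ex x y) hi
  have b2 : ∀ i < d y z, ¬ y / 2 ^ i = z / 2 ^ i := fun i hi => Nat.find_min (ex y z) hi
  rw [← h] at a2 b2
  generalize d x y = j at *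
  rcases j with _ | i
  · simp at a1; omega
  · have c1 := b1 i (by omega)
    have c2 := b2 i (by omega)
    have e1 : x / 2 ^ i ≤ y / 2 ^ i := Nat.div_le_div_right h1.le
    have e2 : y / 2 ^ i ≤ z / 2 ^ i := Nat.div_le_div_right h2.le
    simp only [pow_succ, ← Nat.div_div_eq_div_mul] at a1 a2
    omega

theorem mono (y : ℕ → ℕ) (M B : ℕ) (b : Bool)
    (h : ∀ i, i + 1 < M → y i ≠ y (i + 1) ∧ decide (y i < y (i + 1)) = b)
    (hb : ∀ i < M, y i ≤ B) : M ≤ B + 1 := by
  rcases M with _ | M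
  · omega
  cases b
  · have : ∀ i < M + 1, y i + i ≤ B := by
      intro i
      induction i with
      | zero => exact fun hi => hb 0 hi
      | succ i ih =>
        intro hi
        have := ih (by omega)
        have := h i hi
        simp only [decide_eq_false_iff_not] at this
        omega
    have := this M (by omega); omega
  · have : ∀ i < M + 1, i ≤ y i := by
      intro i
      induction i with
      | zero => omega
      | succ i ih =>
        intro hi
        have := ih (by omega)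
        have := h i hi
        simp only [decide_eq_true_eq] at this
        omega
    have := this M (by omega)
    have := hb M (by omega); omega

def enc (a b c : Bool) : Fin 9 := (if a then 4 else 0) + (if b then 2 else 0) + (if c then 1 else 0)

theorem enc_inj : ∀ a b c a' b' c', enc a b c = enc a' b' c' → a = a' ∧ b = b' ∧ c = c' := by
  decide

theorem enc_ne : ∀ a b c, enc a b c ≠ 8 := by decide

def col (a b c e : ℕ) : Fin 9 :=
  enc (decide (d a b < d b c)) (decide (d b c < d c e))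
    (decide (d (d a b) (d b c) < d (d b c) (d c e)))

theorem core (x : ℕ → ℕ) (L t : ℕ) (hx : ∀ i, i + 1 < L → x i < x (i + 1))
    (hb : ∀ i < L, x i < 2 ^ 2 ^ t) (c : Fin 9)
    (h : ∀ i, i + 3 < L → col (x i) (x (i + 1)) (x (i + 2)) (x (i + 3)) = c) : L ≤ t + 4 := by
  by_contra hL
  have h0 := h 0 (by omega)
  have hh := fun i (hi : i + 3 < L) => enc_inj _ _ _ _ _ _ ((h i hi).trans h0.symm)
  have h1 := (hh 1 (by omega)).1
  simp only [zero_add] at hh h1
  have := mono (fun i => d (d (x i) (x (i + 1))) (d (x (i + 1)) (x (i + 2)))) (L - 2) (t + 1) _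
    (fun i hi => ⟨?_, (hh i (by omega)).2.2⟩) (fun i hi => d_le ?_ ?_)
  · omega
  · obtain ⟨a1, a2, -⟩ := hh i (by omega)
    have n1 := d_ne (hx i (by omega)) (hx (i + 1) (by omega))
    have n2 := d_ne (hx (i + 1) (by omega)) (hx (i + 2) (by omega))
    have a3 := (a1.trans h1.symm).trans a2.symm
    simp only [decide_eq_decide] at a3
    by_cases hc : d (x i) (x (i + 1)) < d (x (i + 1)) (x (i + 2))
    · exact d_ne hc (a3.1 hc)
    · have hc2 := fun h => hc (a3.2 h)
      have := d_ne (lt_of_le_of_ne (not_lt.1 hc2) n2.symm) (lt_of_le_of_ne (not_lt.1 hc) n1.symm)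
      rw [d_symm, d_symm (d (x (i + 1)) (x (i + 2))) (d (x i) _)] at this
      exact this.symm
  · exact lt_of_le_of_lt (d_le (hb _ (by omega)) (hb _ (by omega))) (by rw [pow_succ]; have := Nat.two_pow_pos t; omega)
  · exact lt_of_le_of_lt (d_le (hb _ (by omega)) (hb _ (by omega))) (by rw [pow_succ]; have := Nat.two_pow_pos t; omega)

def phi {n : ℕ} (e : Finset (Fin n)) : Fin 9 :=
  if h : e.card = 4 then col (e.orderEmbOfFin h 0) (e.orderEmbOfFin h 1) (e.orderEmbOfFin h 2)
    (e.orderEmbOfFin h 3) else 0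

theorem phi_ne {n : ℕ} (e : Finset (Fin n)) : phi e ≠ 8 := by
  unfold phi; split_ifs
  · exact enc_ne _ _ _
  · decide

theorem phi_eq {n : ℕ} {a b c e : Fin n} (h1 : a < b) (h2 : b < c) (h3 : c < e) :
    ({a, b, c, e} : Finset (Fin n)).card = 4 ∧ phi {a, b, c, e} = col a b c e := by
  have hm : StrictMono ![a, b, c, e] := by
    refine Fin.strictMono_iff_lt_succ.2 (fun i => ?_)
    fin_cases i <;> simpa
  have hc : ({a, b, c, e} : Finset (Fin n)).card = 4 := by
    have : ({a, b, c, e} : Finset (Fin n)) = univ.image ![a, b, c, e] := by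
      simp [Fin.univ_succ]
    rw [this, card_image_of_injective _ hm.injective]; simp
  refine ⟨hc, ?_⟩
  have := orderEmbOfFin_unique hc (f := ![a, b, c, e]) (fun i => by fin_cases i <;> simp) hm
  unfold phi
  rw [dif_pos hc, ← this]
  rfl

theorem small {n t : ℕ} (hn : n ≤ 2 ^ 2 ^ t) (S : Finset (Fin n)) (c : Fin 9)
    (h : ∀ e ∈ S.powersetCard 4, phi e = c) : S.card ≤ t + 4 := by
  let f := S.orderEmbOfFin rfl
  refine core (fun i => if hi : i < S.card then (f ⟨i, hi⟩).val else 0) S.card t ?_ ?_ c ?_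
  · intro i hi
    simp only [dif_pos hi, dif_pos (show i < S.card by omega)]
    exact f.strictMono (by simp [Fin.lt_def])
  · intro i hi
    simp only [dif_pos hi]
    exact lt_of_lt_of_le (f _).2 hn
  · intro i hi
    simp only [dif_pos hi, dif_pos (show i < S.card by omega),
      dif_pos (show i + 1 < S.card by omega), dif_pos (show i + 2 < S.card by omega)]
    have := phi_eq (a := f ⟨i, by omega⟩) (b := f ⟨i + 1, by omega⟩) (c := f ⟨i + 2, by omega⟩)
      (e := f ⟨i + 3, hi⟩) (f.strictMono (by simp [Fin.lt_def]))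
      (f.strictMono (by simp [Fin.lt_def])) (f.strictMono (by simp [Fin.lt_def]))
    rw [← this.2]
    refine h _ (mem_powersetCard.2 ⟨?_, this.1⟩)
    intro x hx
    simp only [mem_insert, mem_singleton] at hx
    rcases hx with rfl | rfl | rfl | rfl <;> exact orderEmbOfFin_mem _ _ _

theorem big (C D : ℝ) : ∃ t : ℕ, C * ((t + 5 : ℕ) : ℝ) ^ D < 2 ^ t * Real.log 2 := by
  have l2 : 0 < Real.log 2 := Real.log_pos one_lt_two
  have h := ((tendsto_pow_const_div_const_pow_of_one_lt ⌈D⌉₊ (one_lt_two (α := ℝ))).comp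
    (tendsto_add_atTop_nat 5)).const_mul (|C| * 32)
  rw [mul_zero] at h
  obtain ⟨t, ht⟩ := (h.eventually (gt_mem_nhds l2)).exists
  refine ⟨t, ?_⟩
  simp only [Function.comp] at ht
  have h1 : ((t + 5 : ℕ) : ℝ) ^ D ≤ ((t + 5 : ℕ) : ℝ) ^ ⌈D⌉₊ := by
    rw [← Real.rpow_natCast]
    exact Real.rpow_le_rpow_of_exponent_le (by exact_mod_cast (by omega)) (Nat.le_ceil D)
  have h2 : C * ((t + 5 : ℕ) : ℝ) ^ D ≤ |C| * ((t + 5 : ℕ) : ℝ) ^ ⌈D⌉₊ :=
    mul_le_mul (le_abs_self C) h1 (by positivity) (abs_nonneg C)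
  have h3 : |C| * 32 * (((t + 5 : ℕ) : ℝ) ^ ⌈D⌉₊ / 2 ^ (t + 5)) =
      |C| * ((t + 5 : ℕ) : ℝ) ^ ⌈D⌉₊ / 2 ^ t := by
    rw [pow_add]; field_simp; norm_num
  rw [h3, div_lt_iff₀ (by positivity)] at ht
  linarith

end Pool.Agent.H.QR
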